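import Mathlib

open MeasureTheory ProbabilityTheory Set Filter Topology
open scoped ENNReal

namespace Pool.Agent.Results.MP_a33f4b_pr.Counter

/-- the mean-split quantization `T(μ, n)` -/
noncomputable def T : ℕ → Measure ℝ → Measure ℝ
  | 0, μ => Measure.dirac (∫ x, x ∂μ)
  | n + 1, μ => μ (Iio (∫ x, x ∂μ)) • T n (μ[|Iio (∫ x, x ∂μ)]) +
      μ (Ici (∫ x, x ∂μ)) • T n (μ[|Ici (∫ x, x ∂μ)])

/-- `W_1(μ, ν) = ∫ |F_μ - F_ν|` -/
noncomputable def W1 (μ ν : Measure ℝ) : ℝ≥0∞ :=
  ∫⁻ t, ENNReal.ofReal |μ.real (Iic t) - ν.real (Iic t)|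

lemma T_univ (n : ℕ) : ∀ (μ : Measure ℝ) [IsProbabilityMeasure μ], T n μ univ = 1 := by
  induction n with
  | zero => intro μ _; simp [T]
  | succ n ih =>
    intro μ _
    have : ∀ s, μ s * T n (μ[|s]) univ = μ s := fun s => by
      by_cases h : μ s = 0
      · simp [h]
      · have := cond_isProbabilityMeasure h
        simp [ih]
    simp only [T, Measure.add_apply, Measure.smul_apply, smul_eq_mul, this]
    rw [← compl_Ici, add_comm, prob_add_prob_compl measurableSet_Ici]

lemma T_supp (n : ℕ) {b : ℝ} (hb : 0 ≤ b) : ∀ (μ : Measure ℝ) [IsZeroOrProbabilityMeasure μ],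
    μ (Ioi b) = 0 → T n μ (Ioi b) = 0 := by
  induction n with
  | zero =>
    intro μ _ h
    have : ∫ x, x ∂μ ≤ b := by
      by_cases hi : Integrable (fun x => x) μ
      · refine (integral_mono_ae hi (integrable_const b) ((measure_eq_zero_iff_ae_notMem.1 h).mono
          fun x hx => not_lt.1 hx)).trans ?_
        simpa using mul_le_of_le_one_left hb measureReal_le_one
      · rwa [integral_undef hi]
    simp [T, this]
  | succ n ih =>
    intro μ _ h
    simp [T, ih _ (cond_absolutelyContinuous h)]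

noncomputable def μ : Measure ℝ := Measure.sum fun k : ℕ => ENNReal.ofReal (25 / 4 * (1 / 4) ^ k) •
  volume.restrict (Icc ((3 / 2) ^ k) (11 / 10 * (3 / 2) ^ k))

lemma lint (j p : ℕ) (hp : p ≤ 2) : ∫⁻ x in Ici ((3 / 2) ^ j), ENNReal.ofReal (x ^ p) ∂μ =
    ENNReal.ofReal (25 / 4 * ((11 / 10) ^ (p + 1) - 1) / (p + 1) * ((3 / 2) ^ (p + 1) / 4) ^ j /
      (1 - (3 / 2) ^ (p + 1) / 4)) := by
  have hq : (3 / 2 : ℝ) ^ (p + 1) / 4 < 1 := by interval_cases p <;> norm_num
  have hc : (0 : ℝ) ≤ (11 / 10) ^ (p + 1) - 1 := sub_nonneg.2 (one_le_pow₀ (by norm_num))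
  have h1 : ∀ k : ℕ, ∫⁻ x in Icc ((3 / 2 : ℝ) ^ k) (11 / 10 * (3 / 2) ^ k), ENNReal.ofReal (x ^ p) =
      ENNReal.ofReal (((11 / 10) ^ (p + 1) - 1) / (p + 1) * ((3 / 2) ^ (p + 1)) ^ k) := fun k => by
    have : (0 : ℝ) < (3 / 2) ^ k := by positivity
    rw [← ofReal_integral_eq_lintegral_ofReal (by fun_prop : Continuous _).integrableOn_Icc
      ((ae_restrict_iff' measurableSet_Icc).2 (.of_forall fun x hx => pow_nonneg (this.le.trans hx.1) _)),
      integral_Icc_eq_integral_Ioc, ← intervalIntegral.integral_of_le (by linarith), integral_pow]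
    congr 1; ring
  set A := 25 / 4 * ((11 / 10 : ℝ) ^ (p + 1) - 1) / (p + 1)
  have hA : 0 ≤ A := by positivity
  have h2 : HasSum (fun k => if j ≤ k then A * ((3 / 2) ^ (p + 1) / 4) ^ k else 0)
      (A * ((3 / 2) ^ (p + 1) / 4) ^ j / (1 - (3 / 2) ^ (p + 1) / 4)) := by
    rw [← hasSum_nat_add_iff' j, Finset.sum_eq_zero fun k hk => if_neg (by simpa using hk)]
    simpa [pow_add _ _ j, div_eq_mul_inv, mul_assoc, mul_comm, mul_left_comm] using
      (hasSum_geometric_of_lt_one (by positivity) hq).mul_left (A * ((3 / 2) ^ (p + 1) / 4) ^ j)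
  rw [μ, Measure.restrict_sum _ measurableSet_Ici, lintegral_sum_measure, ← h2.tsum_eq,
    ENNReal.ofReal_tsum_of_nonneg (fun k => by positivity) h2.summable]
  refine tsum_congr fun k => ?_
  rw [Measure.restrict_smul, lintegral_smul_measure, Measure.restrict_restrict measurableSet_Ici]
  split_ifs with h
  · have : (3 / 2 : ℝ) ^ j ≤ (3 / 2) ^ k := pow_le_pow_right₀ (by norm_num) h
    rw [inter_eq_self_of_subset_right (Icc_subset_Ici_self.trans (Ici_subset_Ici.2 this)), h1, smul_eq_mul,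
      ← ENNReal.ofReal_mul (by positivity)]
    congr 1; simp only [A, div_pow, one_pow]; field_simp
  · have : (3 / 2 : ℝ) ^ (k + 1) ≤ (3 / 2) ^ j := pow_le_pow_right₀ (by norm_num) (by omega)
    have h0 : (0 : ℝ) < (3 / 2) ^ k := by positivity
    rw [eq_empty_of_forall_notMem (s := _ ∩ _) fun x hx => by
      have := hx.1; have := hx.2.2; simp only [mem_Ici, pow_succ] at *; linarith]
    simp

lemma tail (j : ℕ) : μ (Ici ((3 / 2) ^ j)) = ENNReal.ofReal ((3 / 8) ^ j) := by
  have := lint j 0 (by omega)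
  simp only [pow_zero, ENNReal.ofReal_one, lintegral_one, Measure.restrict_apply_univ] at this
  rw [this]; congr 1; norm_num

lemma low : μ (Iio 1) = 0 := by
  rw [μ, Measure.sum_apply _ measurableSet_Iio, ENNReal.tsum_eq_zero]
  intro k
  rw [Measure.smul_apply, Measure.restrict_apply measurableSet_Iio,
    eq_empty_of_forall_notMem (s := Iio 1 ∩ Icc _ _) fun x hx =>
      absurd ((one_le_pow₀ (by norm_num)).trans hx.2.1) (not_le.2 hx.1)]
  simp

lemma restr : μ.restrict (Ici ((3 / 2) ^ 0)) = μ := Measure.restrict_eq_self_of_ae_mem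
  ((measure_eq_zero_iff_ae_notMem.1 low).mono fun x hx => by simpa using hx)

instance : IsProbabilityMeasure μ := ⟨by
  rw [← restr, Measure.restrict_apply_univ, tail]; simp⟩

lemma mean (j : ℕ) : ∫ x, x ∂μ[|Ici ((3 / 2) ^ j)] = (3 / 2) ^ (j + 1) := by
  have := lint j 1 (by omega)
  simp only [pow_one] at this
  rw [ProbabilityTheory.cond, integral_smul_measure, integral_eq_lintegral_of_nonneg_ae
    ((ae_restrict_iff' measurableSet_Ici).2 (.of_forall fun x hx => le_trans (by positivity) hx))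
    (by fun_prop), this, tail, ENNReal.toReal_inv, ENNReal.toReal_ofReal (by positivity),
    ENNReal.toReal_ofReal (by norm_num; positivity), smul_eq_mul,
    show ((3 / 2 : ℝ) ^ (1 + 1) / 4) ^ j = (3 / 8) ^ j * (3 / 2) ^ j by rw [← mul_pow]; norm_num]
  field_simp; norm_num; ring

lemma top (n : ℕ) : ∀ j, T n (μ[|Ici ((3 / 2) ^ j)]) (Ioi ((3 / 2) ^ (j + n + 1))) = 0 := by
  induction n with
  | zero => intro j; simp [T, mean]
  | succ n ih =>
    intro j
    have h1 : ∀ a b : ℕ, a ≤ b → (3 / 2 : ℝ) ^ a ≤ (3 / 2) ^ b := fun a b =>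
      pow_le_pow_right₀ (by norm_num)
    simp only [T, mean, Measure.add_apply, Measure.smul_apply, smul_eq_mul]
    rw [T_supp n (by positivity), cond_cond_eq_cond_inter measurableSet_Ici measurableSet_Ici,
      inter_eq_self_of_subset_right (Ici_subset_Ici.2 (h1 _ _ (by omega))),
      show j + (n + 1) + 1 = j + 1 + n + 1 by ring, ih]
    · simp
    · rw [cond_apply measurableSet_Iio, eq_empty_of_forall_notMem (s := _ ∩ _) fun x hx =>
        absurd (hx.1.trans_le (h1 _ _ (by omega))) (not_lt.2 hx.2.le)]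
      simp

lemma W_low (n : ℕ) : ENNReal.ofReal (27 / 256 * (9 / 16) ^ n) ≤ W1 (T n μ) μ := by
  have h := top n 0
  rw [ProbabilityTheory.cond, restr, tail, zero_add] at h
  simp only [pow_zero, ENNReal.ofReal_one, inv_one, one_smul] at h
  have : IsProbabilityMeasure (T n μ) := ⟨T_univ n μ⟩
  refine le_trans ?_ (setLIntegral_le_lintegral (Ioo ((3 / 2) ^ (n + 1)) ((3 / 2) ^ (n + 2))) _)
  refine le_trans ?_ (setLIntegral_mono' (f := fun _ => ENNReal.ofReal ((3 / 8) ^ (n + 2)))
    measurableSet_Ioo fun t ht => ENNReal.ofReal_le_ofReal ?_)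
  · rw [setLIntegral_const, Real.volume_Ioo, ← ENNReal.ofReal_mul (by positivity),
      show (9 / 16 : ℝ) ^ n = (3 / 8) ^ n * (3 / 2) ^ n by rw [← mul_pow]; norm_num]
    exact (congrArg _ (by ring)).le
  · have e1 : (T n μ).real (Ioi t) = 0 := by
      rw [Measure.real, measure_mono_null (Ioi_subset_Ioi ht.1.le) h]; rfl
    have e2 : (3 / 8) ^ (n + 2) ≤ μ.real (Ioi t) := by
      rw [← ENNReal.toReal_ofReal (r := (3 / 8) ^ (n + 2)) (by positivity), ← tail]
      exact measureReal_mono fun x hx => ht.2.trans_le hx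
    rw [← compl_Ioi, probReal_compl_eq_one_sub measurableSet_Ioi,
      probReal_compl_eq_one_sub measurableSet_Ioi]
    refine le_trans ?_ (le_abs_self _)
    linarith

theorem result : ∃ μ : Measure ℝ, IsProbabilityMeasure μ ∧ μ ≪ volume ∧ MemLp id 2 μ ∧
    ((-Real.log 2 : ℝ) : EReal) < limsup (fun n : ℕ => (W1 (T n μ) μ).log / n) atTop := by
  refine ⟨μ, inferInstance, ?_, ?_, ?_⟩
  · exact fun s hs => by simp [μ, Measure.absolutelyContinuous_of_le
      Measure.restrict_le_self hs, Measure.sum_apply_eq_zero]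
  · refine (memLp_two_iff_integrable_sq (by fun_prop)).2 ⟨by fun_prop, ?_⟩
    rw [hasFiniteIntegral_iff_ofReal (.of_forall fun x => sq_nonneg _), ← restr]
    exact (lint 0 2 le_rfl).trans_lt ENNReal.ofReal_lt_top
  have h1 : Tendsto (fun n : ℕ => ((Real.log (27 / 256) / n + Real.log (9 / 16) : ℝ) : EReal)) atTop
      (𝓝 ((0 + Real.log (9 / 16) : ℝ) : EReal)) := EReal.tendsto_coe.2
    ((tendsto_const_div_atTop_nhds_zero_nat _).add_const _)
  refine lt_of_lt_of_le ?_ (h1.limsup_eq.symm.trans_le (limsup_le_limsup ?_))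
  · rw [EReal.coe_lt_coe_iff, zero_add, ← Real.log_inv]
    exact Real.log_lt_log (by norm_num) (by norm_num)
  · filter_upwards [eventually_gt_atTop 0] with n hn
    refine le_trans (le_of_eq ?_) (EReal.div_le_div_right_of_nonneg (by positivity)
      (ENNReal.log_monotone (W_low n)))
    rw [ENNReal.log_ofReal_of_pos (by positivity), Real.log_mul (by norm_num) (by positivity),
      Real.log_pow, ← EReal.coe_natCast, ← EReal.coe_div]
    congr 1; field_simp

end Pool.Agent.Results.MP_a33f4b_pr.Counter
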